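import Mathlib

set_option autoImplicit false

/-!
# Theorem F for equivalence relations on the integers

Let `W i` (`i` an integer) be pairwise permuting equivalence relations on the integers such that
`W (i + 1)` is the shift of `W i` by one. If the classes of `W 0` are finite, then `W 0` is
equality.
-/

namespace Pool.Lift36

/-- The equivalence relation generated by the relations `W i` with `i` in `I`. -/
def RR (W : ℤ → Setoid ℤ) (I : Set ℤ) : ℤ → ℤ → Prop :=
  Relation.ReflTransGen (fun x y => ∃ i ∈ I, W i x y)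

section basic

variable {W : ℤ → Setoid ℤ}

theorem RR.refl (I : Set ℤ) (x : ℤ) : RR W I x x := Relation.ReflTransGen.refl

theorem RR.trans {I : Set ℤ} {x y z : ℤ} (h : RR W I x y) (h' : RR W I y z) : RR W I x z :=
  Relation.ReflTransGen.trans h h'

theorem RR.symm {I : Set ℤ} {x y : ℤ} (h : RR W I x y) : RR W I y x := by
  induction h with
  | refl => exact RR.refl I x
  | tail _ hbc ih =>
    obtain ⟨i, hi, hw⟩ := hbc
    exact Relation.ReflTransGen.head ⟨i, hi, (W i).symm hw⟩ ih

theorem RR.mono {I J : Set ℤ} (hIJ : I ⊆ J) {x y : ℤ} (h : RR W I x y) : RR W J x y := by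
  induction h with
  | refl => exact Relation.ReflTransGen.refl
  | tail _ hbc ih =>
    obtain ⟨i, hi, hw⟩ := hbc
    exact Relation.ReflTransGen.tail ih ⟨i, hIJ hi, hw⟩

theorem RR.single {I : Set ℤ} {i : ℤ} (hi : i ∈ I) {x y : ℤ} (h : W i x y) : RR W I x y :=
  Relation.ReflTransGen.single ⟨i, hi, h⟩

/-- finite support -/
theorem RR.finsupp {I : Set ℤ} {x y : ℤ} (h : RR W I x y) :
    ∃ K : ℕ, RR W (I ∩ Set.Icc (-(K : ℤ)) K) x y := by
  induction h with
  | refl => exact ⟨0, RR.refl _ _⟩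
  | tail _ hbc ih =>
    obtain ⟨K, hK⟩ := ih
    obtain ⟨i, hi, hw⟩ := hbc
    have h1 : I ∩ Set.Icc (-(K : ℤ)) K ⊆
        I ∩ Set.Icc (-((K + i.natAbs : ℕ) : ℤ)) ((K + i.natAbs : ℕ) : ℤ) := by
      intro j hj
      obtain ⟨hj0, hj1, hj2⟩ := hj
      exact ⟨hj0, by omega, by omega⟩
    have h2 : i ∈ I ∩ Set.Icc (-((K + i.natAbs : ℕ) : ℤ)) ((K + i.natAbs : ℕ) : ℤ) :=
      ⟨hi, by omega, by omega⟩
    exact ⟨K + i.natAbs, RR.trans (RR.mono h1 hK) (RR.single h2 hw)⟩

/-- the pairwise permuting hypothesis -/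
def Permuting (W : ℤ → Setoid ℤ) : Prop :=
  ∀ i j x y z : ℤ, W i x y → W j y z → ∃ w, W j x w ∧ W i w z

theorem perm1 (hp : Permuting W) {i : ℤ} {J : Set ℤ} {x y z : ℤ} (h : W i x y)
    (h' : RR W J y z) : ∃ w, RR W J x w ∧ W i w z := by
  induction h' with
  | refl => exact ⟨x, RR.refl _ _, h⟩
  | tail _ hbc ih =>
    obtain ⟨w, hw1, hw2⟩ := ih
    obtain ⟨j, hj, hw⟩ := hbc
    obtain ⟨v, hv1, hv2⟩ := hp i j _ _ _ hw2 hw
    exact ⟨v, RR.trans hw1 (RR.single hj hv1), hv2⟩

theorem perm1' (hp : Permuting W) {i : ℤ} {J : Set ℤ} {x y z : ℤ} (h : RR W J x y)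
    (h' : W i y z) : ∃ w, W i x w ∧ RR W J w z := by
  obtain ⟨w, hw1, hw2⟩ := perm1 hp ((W i).symm h') h.symm
  exact ⟨w, (W i).symm hw2, hw1.symm⟩

theorem RR_union (hp : Permuting W) {I J : Set ℤ} {x z : ℤ} (h : RR W (I ∪ J) x z) :
    ∃ y, RR W I x y ∧ RR W J y z := by
  induction h with
  | refl => exact ⟨x, RR.refl _ _, RR.refl _ _⟩
  | tail _ hbc ih =>
    obtain ⟨y, hy1, hy2⟩ := ih
    obtain ⟨i, hi, hw⟩ := hbc
    rcases hi with hi | hi
    · obtain ⟨v, hv1, hv2⟩ := perm1' hp hy2 hw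
      exact ⟨v, RR.trans hy1 (RR.single hi hv1), hv2⟩
    · exact ⟨y, hy1, RR.trans hy2 (RR.single hi hw)⟩

/-- the shift hypothesis -/
def Shifting (W : ℤ → Setoid ℤ) : Prop :=
  ∀ i x y : ℤ, W i x y ↔ W (i + 1) (x + 1) (y + 1)

theorem shiftNat (hs : Shifting W) (n : ℕ) (i x y : ℤ) :
    W i x y ↔ W (i + n) (x + n) (y + n) := by
  induction n with
  | zero =>
    have e : ∀ a : ℤ, a + ((0 : ℕ) : ℤ) = a := by
      intro a
      simp
    rw [e, e, e]
  | succ n ih =>
    rw [ih, hs]
    have e : ∀ a : ℤ, a + (n : ℤ) + 1 = a + ((n + 1 : ℕ) : ℤ) := by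
      intro a
      push_cast
      ring
    rw [e, e, e]

theorem shiftInt (hs : Shifting W) (s i x y : ℤ) :
    W i x y ↔ W (i + s) (x + s) (y + s) := by
  rcases Int.le_total 0 s with h | h
  · obtain ⟨n, rfl⟩ := Int.eq_ofNat_of_zero_le h
    exact shiftNat hs n i x y
  · obtain ⟨n, hn⟩ := Int.eq_ofNat_of_zero_le (neg_nonneg.mpr h)
    have h1 := shiftNat hs n (i + s) (x + s) (y + s)
    rw [h1]
    have e : ∀ a : ℤ, a + s + (n : ℤ) = a := by
      intro a
      omega
    rw [e, e, e]

theorem RR_shift (hs : Shifting W) (s : ℤ) {I J : Set ℤ} (hIJ : ∀ i ∈ I, i + s ∈ J) {x y : ℤ}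
    (h : RR W I x y) : RR W J (x + s) (y + s) := by
  induction h with
  | refl => exact RR.refl _ _
  | tail _ hbc ih =>
    obtain ⟨i, hi, hw⟩ := hbc
    exact RR.trans ih (RR.single (hIJ i hi) ((shiftInt hs s _ _ _).mp hw))

theorem fin_class0 (hs : Shifting W) (hf : ∀ x, {y | W 0 x y}.Finite) (i x : ℤ) :
    {y | W i x y}.Finite := by
  have h := (hf (x - i)).image (fun y => y + i)
  refine h.subset ?_
  intro y hy
  refine ⟨y - i, ?_, by simp⟩
  have h1 := shiftInt hs i 0 (x - i) (y - i)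
  rw [zero_add, sub_add_cancel, sub_add_cancel] at h1
  exact h1.mpr hy

theorem fin_class (hp : Permuting W) (hs : Shifting W) (hf : ∀ x, {y | W 0 x y}.Finite)
    {I : Set ℤ} (hI : I.Finite) (x : ℤ) : {y | RR W I x y}.Finite := by
  revert x
  refine Set.Finite.induction_on (motive := fun I _ => ∀ x, {y | RR W I x y}.Finite) I hI ?_ ?_
  · intro x
    refine (Set.finite_singleton x).subset ?_
    intro y hy
    rcases Relation.ReflTransGen.cases_tail hy with h | ⟨c, _, ⟨i, hi, _⟩⟩
    · exact h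
    · exact absurd hi (Set.notMem_empty i)
  · intro i I _ _ ih x
    have h1 : {y | RR W (insert i I) x y} ⊆ ⋃ y ∈ {y | RR W I x y}, {z | W i y z} := by
      intro z hz
      have h2 : RR W (I ∪ {i}) x z := RR.mono (by
        intro j hj
        rcases hj with hj | hj
        · exact Or.inr hj
        · exact Or.inl hj) hz
      obtain ⟨y, hy1, hy2⟩ := RR_union hp h2
      simp only [Set.mem_iUnion]
      refine ⟨y, hy1, ?_⟩
      clear hy1 h2 hz
      change RR W {i} y z at hy2
      change W i y z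
      induction hy2 with
      | refl => exact (W i).refl _
      | tail _ hbc ih =>
        obtain ⟨j, hj, hw⟩ := hbc
        rw [Set.mem_singleton_iff] at hj
        subst hj
        exact (W j).trans ih hw
    exact ((ih x).biUnion (fun y _ => fin_class0 hs hf i y)).subset h1

end basic

section key

variable {W : ℤ → Setoid ℤ}

/-- The case in which all classes of the one-sided relation are unbounded above. -/
theorem case_up (hp : Permuting W) (hs : Shifting W) (hf : ∀ x, {y | W 0 x y}.Finite)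
    (m : ℤ) (hm : 0 < m) (hN : ∀ x y, RR W Set.univ x y ↔ m ∣ y - x)
    (hub : ∀ x M : ℤ, ∃ y, M ≤ y ∧ RR W (Set.Ici 0) x y) : False := by
  -- far out on the right the one-sided relation contains congruence modulo `m`
  obtain ⟨K, hK⟩ := ((hN 0 m).mpr (by simp)).finsupp
  have h1 : ∀ t : ℤ, K ≤ t → RR W (Set.Ici 0) t (t + m) := by
    intro t ht
    have := RR_shift hs t (J := Set.Ici 0) (fun i hi => by
      have := hi.2.1
      simp only [Set.mem_Ici]
      omega) hK
    simpa [add_comm] using this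
  have h2 : ∀ n : ℕ, ∀ t : ℤ, K ≤ t → RR W (Set.Ici 0) t (t + n * m) := by
    intro n
    induction n with
    | zero => intro t _; simpa using RR.refl _ t
    | succ n ih =>
      intro t ht
      have h3 := h1 (t + n * m) (by nlinarith)
      have h4 : t + n * m + m = t + ((n + 1 : ℕ) : ℤ) * m := by push_cast; ring
      rw [h4] at h3
      exact (ih t ht).trans h3
  have h3 : ∀ x x' : ℤ, m ∣ x' - x → RR W (Set.Ici 0) x x' := by
    have key : ∀ x x' y y' : ℤ, m ∣ x' - x → K ≤ y → K ≤ y' → y ≤ y' →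
        RR W (Set.Ici 0) x y → RR W (Set.Ici 0) x' y' → RR W (Set.Ici 0) x x' := by
      intro x x' y y' hd hy hy' hle h h'
      have d1 : m ∣ y - x := (hN x y).mp (h.mono (Set.subset_univ _))
      have d2 : m ∣ y' - x' := (hN x' y').mp (h'.mono (Set.subset_univ _))
      have d3 : m ∣ y' - y := by
        have : y' - y = (y' - x') + (x' - x) - (y - x) := by ring
        rw [this]
        exact dvd_sub (dvd_add d2 hd) d1
      obtain ⟨c, hc⟩ := d3
      have hc0 : 0 ≤ c := by
        by_contra hneg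
        push Not at hneg
        nlinarith
      obtain ⟨n, rfl⟩ := Int.eq_ofNat_of_zero_le hc0
      have h4 := h2 n y hy
      have h5 : y + (n : ℤ) * m = y' := by linarith [mul_comm m (n : ℤ)]
      rw [h5] at h4
      exact (h.trans h4).trans h'.symm
    intro x x' hd
    obtain ⟨y, hy, hxy⟩ := hub x K
    obtain ⟨y', hy', hxy'⟩ := hub x' K
    rcases le_total y y' with hle | hle
    · exact key x x' y y' hd hy hy' hle hxy hxy'
    · exact (key x' x y' y (by rw [← neg_sub]; exact (dvd_neg).mpr hd) hy' hy hle hxy' hxy).symm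
  -- the relation from `m` on
  have h4 : ∀ x x' : ℤ, m ∣ x' - x → RR W (Set.Ici m) x x' := by
    intro x x' hd
    have := RR_shift hs m (J := Set.Ici m) (fun i hi => by
      simp only [Set.mem_Ici] at hi ⊢
      omega) (h3 (x - m) (x' - m) (by simpa using hd))
    simpa using this
  -- the class of `0` under the first `m` relations
  have hC : {y | RR W (Set.Ico 0 m) 0 y}.Finite := fin_class hp hs hf (Set.finite_Ico 0 m) 0
  have h5 : ∃ n : ℕ, ∀ y ∈ {y | RR W (Set.Ico 0 m) 0 y}, RR W (Set.Icc m n) y m := by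
    have h6 : ∀ y ∈ {y | RR W (Set.Ico 0 m) 0 y}, ∃ n : ℕ, RR W (Set.Icc m n) y m := by
      intro y hy
      have d1 : m ∣ y - 0 := (hN 0 y).mp (RR.mono (Set.subset_univ _) hy)
      obtain ⟨n, hn⟩ := (h4 y m (by
        rw [sub_zero] at d1
        exact dvd_sub (dvd_refl m) d1)).finsupp
      have h8 : Set.Ici m ∩ Set.Icc (-(n : ℤ)) n ⊆ Set.Icc m n := fun i hi => ⟨hi.1, hi.2.2⟩
      exact ⟨n, RR.mono h8 hn⟩
    choose! g hg using h6
    obtain ⟨n, hn⟩ := (hC.image g).bddAbove
    refine ⟨n, fun y hy => (hg y hy).mono ?_⟩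
    have h7 : g y ≤ n := hn (Set.mem_image_of_mem g hy)
    exact Set.Icc_subset_Icc_right (by exact_mod_cast h7)
  obtain ⟨n, hn⟩ := h5
  -- the class of `0` under the relations of index between `0` and `n`
  have hY : {y | RR W (Set.Icc 0 (n : ℤ)) 0 y}.Finite :=
    fin_class hp hs hf (Set.finite_Icc 0 (n : ℤ)) 0
  have hdown : ∀ z, RR W (Set.Icc 0 (n : ℤ)) 0 z → RR W (Set.Icc 0 (n : ℤ)) 0 (z - m) := by
    intro z hz
    have hz' : RR W (Set.Ico 0 m ∪ Set.Icc m n) 0 z := hz.mono (by
      intro i hi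
      rcases lt_or_ge i m with h | h
      · exact Or.inl ⟨hi.1, h⟩
      · exact Or.inr ⟨h, hi.2⟩)
    obtain ⟨y, hy1, hy2⟩ := RR_union hp hz'
    have h6 : RR W (Set.Icc m n) m z := (hn y hy1).symm.trans hy2
    have h7 := RR_shift hs (-m) (J := Set.Icc 0 (n : ℤ)) (fun i hi => by
      have := hi.1; have := hi.2
      constructor <;> omega) h6
    simpa [sub_eq_add_neg] using h7
  obtain ⟨z, hz, hmin⟩ := hY.exists_minimal ⟨0, RR.refl _ _⟩
  have := hmin (hdown z hz) (by omega)
  omega

/-- the reflection of a family of relations -/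
def refl (W : ℤ → Setoid ℤ) : ℤ → Setoid ℤ := fun i => Setoid.comap (fun x => -x) (W (-i))

theorem refl_rel (W : ℤ → Setoid ℤ) (i x y : ℤ) : refl W i x y ↔ W (-i) (-x) (-y) := Iff.rfl

theorem refl_perm (hp : Permuting W) : Permuting (refl W) := by
  intro i j x y z h1 h2
  obtain ⟨w, hw1, hw2⟩ := hp (-i) (-j) (-x) (-y) (-z) h1 h2
  refine ⟨-w, ?_, ?_⟩
  · rw [refl_rel, neg_neg]; exact hw1
  · rw [refl_rel, neg_neg]; exact hw2

theorem refl_shift (hs : Shifting W) : Shifting (refl W) := by
  intro i x y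
  rw [refl_rel, refl_rel, hs (-(i + 1)) (-(x + 1)) (-(y + 1))]
  have e : ∀ a : ℤ, -(a + 1) + 1 = -a := by intro a; ring
  rw [e, e, e]

theorem refl_RR {I J : Set ℤ} (hIJ : ∀ i ∈ I, -i ∈ J) {x y : ℤ} (h : RR W I x y) :
    RR (refl W) J (-x) (-y) := by
  induction h with
  | refl => exact RR.refl _ _
  | tail _ hbc ih =>
    obtain ⟨i, hi, hw⟩ := hbc
    refine RR.trans ih (RR.single (hIJ i hi) ?_)
    rw [refl_rel, neg_neg, neg_neg, neg_neg]
    exact hw

theorem refl_RR' {I J : Set ℤ} (hIJ : ∀ i ∈ I, -i ∈ J) {x y : ℤ} (h : RR (refl W) I x y) :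
    RR W J (-x) (-y) := by
  induction h with
  | refl => exact RR.refl _ _
  | tail _ hbc ih =>
    obtain ⟨i, hi, hw⟩ := hbc
    exact RR.trans ih (RR.single (hIJ i hi) hw)

/-- **Theorem F.** Pairwise permuting equivalence relations on the integers that are the shifts
of one relation with finite classes are trivial. -/
theorem theoremF (W : ℤ → Setoid ℤ) (hp : Permuting W) (hs : Shifting W)
    (hf : ∀ x, {y | W 0 x y}.Finite) (x y : ℤ) (hxy : W 0 x y) : x = y := by
  by_contra hne
  -- the join of all relations is congruence modulo some positive `m`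
  have hN1 : ∀ s u v : ℤ, RR W Set.univ u v → RR W Set.univ (u + s) (v + s) := fun s u v h =>
    RR_shift hs s (fun _ _ => Set.mem_univ _) h
  let S : AddSubgroup ℤ :=
    { carrier := {d | RR W Set.univ 0 d}
      zero_mem' := RR.refl _ _
      add_mem' := by
        intro a b ha hb
        have h1 := hN1 a 0 b hb
        rw [zero_add, add_comm] at h1
        exact RR.trans ha h1
      neg_mem' := by
        intro a ha
        have h1 := hN1 (-a) 0 a ha
        rw [zero_add, add_neg_cancel] at h1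
        exact h1.symm }
  obtain ⟨m0, hm0⟩ := Int.subgroup_cyclic S
  have hS : ∀ d, RR W Set.univ 0 d ↔ m0 ∣ d := by
    intro d
    have h1 : RR W Set.univ 0 d ↔ d ∈ S := Iff.rfl
    rw [h1, hm0, AddSubgroup.mem_closure_singleton]
    constructor
    · rintro ⟨n, hn⟩
      exact ⟨n, by rw [← hn]; simp [mul_comm]⟩
    · rintro ⟨n, hn⟩
      exact ⟨n, by rw [hn]; simp [mul_comm]⟩
  have hN0 : ∀ u v, RR W Set.univ u v ↔ m0 ∣ v - u := by
    intro u v
    rw [← hS]
    constructor
    · intro h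
      have := hN1 (-u) u v h
      simpa [sub_eq_add_neg] using this
    · intro h
      have := hN1 u 0 (v - u) h
      simpa using this
  have hm00 : m0 ≠ 0 := by
    intro h0
    have h1 := (hN0 x y).mp (RR.single (Set.mem_univ 0) hxy)
    rw [h0, zero_dvd_iff] at h1
    exact hne (by omega)
  obtain ⟨m, hm, hN⟩ : ∃ m : ℤ, 0 < m ∧ ∀ u v, RR W Set.univ u v ↔ m ∣ v - u := by
    refine ⟨|m0|, abs_pos.mpr hm00, ?_⟩
    intro u v
    rw [hN0, abs_dvd]
  by_cases hub : ∀ x M : ℤ, ∃ y, M ≤ y ∧ RR W (Set.Ici 0) x y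
  · exact case_up hp hs hf m hm hN hub
  by_cases hlb : ∀ x M : ℤ, ∃ y, y ≤ M ∧ RR W (Set.Iic 0) x y
  · refine case_up (refl_perm hp) (refl_shift hs) (m := m) ?_ hm ?_ ?_
    · intro u
      have h1 := (hf (-u)).image (fun z => -z)
      refine h1.subset ?_
      intro z hz
      exact ⟨-z, by simpa [refl_rel] using hz, by simp⟩
    · intro u v
      constructor
      · intro h
        have h1 := (hN _ _).mp (refl_RR' (J := Set.univ) (fun _ _ => Set.mem_univ _) h)
        have : v - u = -(-v - -u) := by ring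
        rw [this]
        exact (dvd_neg).mpr h1
      · intro h
        have h2 : RR W Set.univ (-u) (-v) := (hN _ _).mpr (by
          have : -v - -u = -(v - u) := by ring
          rw [this]
          exact (dvd_neg).mpr h)
        have h1 := refl_RR (J := Set.univ) (fun _ _ => Set.mem_univ _) h2
        simpa using h1
    · intro u M
      obtain ⟨v, hv1, hv2⟩ := hlb (-u) (-M)
      refine ⟨-v, by omega, ?_⟩
      have h1 := refl_RR (J := Set.Ici 0) (fun i hi => by
        simp only [Set.mem_Iic] at hi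
        simp only [Set.mem_Ici]
        omega) hv2
      simpa using h1
  -- a class bounded above and a class bounded below
  push Not at hub hlb
  obtain ⟨c, M, hc⟩ := hub
  obtain ⟨d, M', hd⟩ := hlb
  -- shift the second class far to the right
  obtain ⟨k, hk1, hk2⟩ : ∃ k : ℤ, 0 ≤ k * m + (c - d) ∧ M ≤ M' + (k * m + (c - d)) := by
    refine ⟨|c - d| + |M| + |M'| + |c - d|, ?_, ?_⟩
    · have h1 : 1 ≤ m := hm
      have := abs_nonneg (c - d); have := abs_nonneg M; have := abs_nonneg M'
      have := neg_abs_le (c - d)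
      nlinarith
    · have h1 : 1 ≤ m := hm
      have := abs_nonneg (c - d); have := abs_nonneg M; have := abs_nonneg M'
      have := neg_abs_le (c - d); have := le_abs_self M; have := neg_abs_le M'
      nlinarith
  set s : ℤ := k * m + (c - d) with hsdef
  have h1 : RR W Set.univ c (d + s) := (hN _ _).mpr (by
    have : d + s - c = k * m := by rw [hsdef]; ring
    rw [this]
    exact dvd_mul_left m k)
  have h2 : RR W (Set.Ici 0 ∪ Set.Iic s) c (d + s) := h1.mono (by
    intro i _
    rcases le_total 0 i with h | h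
    · exact Or.inl h
    · exact Or.inr (le_trans h hk1))
  obtain ⟨z, hz1, hz2⟩ := RR_union hp h2
  have h3 : ¬ M ≤ z := fun h => hc z h hz1
  have h4 := RR_shift hs (-s) (J := Set.Iic 0) (fun i hi => by
    simp only [Set.mem_Iic] at hi ⊢
    omega) hz2.symm
  have h5 : ¬ z + -s ≤ M' := fun h => hd (z + -s) h (by simpa using h4)
  omega

end key

end Pool.Lift36
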