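import Mathlib
import Pool.Agent.Lift36.TheoremF

set_option autoImplicit false

/-!
# Consequences of Theorem F

* `theoremF_affine`: a `T`-submodule with finite level classes leaves the level function
  invariant.
* `reg_abelian`, `reg`: a soluble torsion group of permutations of the integers that is
  normalised by the shift is trivial.
-/

namespace Pool.Lift36

section affine

/-- **Theorem F, affine version.** Let the group `H` act on the abelian group `E` by affine maps
with linear parts `lam`, let `T` be a normal subgroup and `t` an element of `H`, and let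
`kappa : E → ℤ` be a function whose fibres are the `T`-orbits and with
`kappa (t x) = kappa x + 1`. If `W` is a `T`-invariant subgroup and `kappa` takes finitely many
values on every coset of `W`, then `kappa` is constant on the cosets of `W`. -/
theorem theoremF_affine {E H : Type*} [AddCommGroup E] [Group H]
    (phi : H →* Equiv.Perm E) (lam : H → (E →+ E))
    (hphi : ∀ (h : H) (x v : E), phi h (x + v) = phi h x + lam h v)
    (T : Subgroup H) (hT : T.Normal) (t : H)
    (kappa : E → ℤ) (hk : ∀ x y, kappa x = kappa y ↔ ∃ g ∈ T, phi g x = y)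
    (hkt : ∀ x, kappa (phi t x) = kappa x + 1)
    (W : AddSubgroup E) (hW : ∀ g ∈ T, ∀ w ∈ W, lam g w ∈ W)
    (hfin : ∀ x : E, {n : ℤ | ∃ w ∈ W, kappa (x + w) = n}.Finite) :
    ∀ (x w : E), w ∈ W → kappa (x + w) = kappa x := by
  classical
  have hktn : ∀ n : ℤ, ∀ x, kappa (phi (t ^ n) x) = kappa x + n := by
    have hnat : ∀ n : ℕ, ∀ x, kappa (phi (t ^ n) x) = kappa x + n := by
      intro n
      induction n with
      | zero => intro x; simp
      | succ n ih =>
        intro x
        rw [pow_succ, map_mul, Equiv.Perm.mul_apply, ih, hkt]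
        push_cast
        ring
    intro n
    obtain ⟨k, rfl | rfl⟩ := Int.eq_nat_or_neg n
    · intro x
      rw [zpow_natCast, hnat]
    · intro x
      rw [zpow_neg, zpow_natCast]
      have h3 := hnat k (phi (t ^ k)⁻¹ x)
      rw [← Equiv.Perm.mul_apply, ← map_mul, mul_inv_cancel, map_one, Equiv.Perm.one_apply] at h3
      omega
  have hsurj : ∀ a : ℤ, ∃ x, kappa x = a := by
    intro a
    refine ⟨phi (t ^ (a - kappa 0)) 0, ?_⟩
    rw [hktn]
    ring
  have hlam : ∀ a b : H, ∀ v : E, lam (a * b) v = lam a (lam b v) := by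
    intro a b v
    have h1 : phi (a * b) (0 + v) = phi a (phi b (0 + v)) := by rw [map_mul]; rfl
    rw [hphi, hphi, hphi, map_mul, Equiv.Perm.mul_apply] at h1
    exact add_left_cancel h1
  have hlam1 : ∀ v : E, lam 1 v = v := by
    intro v
    have h1 := hphi 1 0 v
    rw [map_one, Equiv.Perm.one_apply, Equiv.Perm.one_apply] at h1
    exact (add_left_cancel h1).symm
  -- the level relation of a `T`-submodule
  have inv_mem : ∀ (i : ℤ), ∀ g ∈ T, ∀ w ∈ W.map (lam (t ^ i)),
      lam g w ∈ W.map (lam (t ^ i)) := by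
    intro i g hg w hw
    obtain ⟨v, hv, rfl⟩ := hw
    refine ⟨lam ((t ^ i)⁻¹ * g * t ^ i) v, hW _ ?_ v hv, ?_⟩
    · have := hT.conj_mem g hg (t ^ i)⁻¹
      rwa [inv_inv] at this
    · rw [← hlam, ← hlam]
      have h9 : t ^ i * ((t ^ i)⁻¹ * g * t ^ i) = g * t ^ i := by group
      rw [h9]
  let R : ℤ → Setoid ℤ := fun i =>
    { r := fun a b => ∃ p : E, ∃ w ∈ W.map (lam (t ^ i)), kappa p = a ∧
        kappa (p + w) = b
      iseqv := by
        constructor
        · intro a
          obtain ⟨p, hp⟩ := hsurj a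
          exact ⟨p, 0, AddSubgroup.zero_mem _, hp, by rw [add_zero, hp]⟩
        · rintro a b ⟨p, w, hw, h1, h2⟩
          exact ⟨p + w, -w, AddSubgroup.neg_mem _ hw, h2, by rw [add_neg_cancel_right, h1]⟩
        · rintro a b c ⟨p, w, hw, h1, h2⟩ ⟨p', w', hw', h3, h4⟩
          obtain ⟨g, hg, h5⟩ := (hk p' (p + w)).mp (by rw [h3, h2])
          refine ⟨p, w + lam g w', AddSubgroup.add_mem _ hw (inv_mem i g hg w' hw'), h1, ?_⟩
          rw [← add_assoc, ← h5, ← hphi, ← h4]
          exact ((hk _ _).mpr ⟨g, hg, rfl⟩).symm }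
  have hR : ∀ i a b, R i a b ↔ ∃ p : E, ∃ w ∈ W.map (lam (t ^ i)), kappa p = a ∧
        kappa (p + w) = b := fun i a b => Iff.rfl
  have hperm : Permuting R := by
    rintro i j a b c ⟨p, w, hw, h1, h2⟩ ⟨p', w', hw', h3, h4⟩
    obtain ⟨g, hg, h5⟩ := (hk p' (p + w)).mp (by rw [h3, h2])
    have hw2 := inv_mem j g hg w' hw'
    refine ⟨kappa (p + lam g w'), ⟨p, lam g w', hw2, h1, rfl⟩,
      ⟨p + lam g w', w, hw, rfl, ?_⟩⟩
    rw [add_right_comm, ← h5, ← hphi, ← h4]
    exact ((hk _ _).mpr ⟨g, hg, rfl⟩).symm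
  have hshift : Shifting R := by
    have haux : ∀ (n i a b : ℤ), R i a b → R (i + n) (a + n) (b + n) := by
      rintro n i a b ⟨p, w, hw, h1, h2⟩
      obtain ⟨v, hv, rfl⟩ := hw
      refine ⟨phi (t ^ n) p, lam (t ^ (i + n)) v, ⟨v, hv, rfl⟩, ?_, ?_⟩
      · rw [hktn, h1]
      · have h6 : lam (t ^ (i + n)) v = lam (t ^ n) (lam (t ^ i) v) := by
          rw [add_comm i n, zpow_add, hlam]
        rw [h6, ← hphi, hktn]
        exact congrArg (· + n) h2
    intro i a b
    constructor
    · exact haux 1 i a b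
    · intro h
      have h7 := haux (-1) (i + 1) (a + 1) (b + 1) h
      have e : ∀ c : ℤ, c + 1 + -1 = c := by intro c; ring
      rwa [e, e, e] at h7
  have hfin' : ∀ a, {b | R 0 a b}.Finite := by
    intro a
    obtain ⟨p0, hp0⟩ := hsurj a
    refine (hfin p0).subset ?_
    rintro b ⟨p, w, hw, h1, h2⟩
    obtain ⟨g, hg, h5⟩ := (hk p p0).mp (by rw [h1, hp0])
    refine ⟨lam g w, hW g hg w ?_, ?_⟩
    · obtain ⟨v, hv, rfl⟩ := hw
      rw [zpow_zero]
      change lam 1 v ∈ W
      rw [hlam1]
      exact hv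
    · rw [← h5, ← hphi, ← h2]
      exact ((hk _ _).mpr ⟨g, hg, rfl⟩).symm
  intro x w hw
  exact (theoremF R hperm hshift hfin' (kappa x) (kappa (x + w))
    ⟨x, w, ⟨w, hw, by rw [zpow_zero]; exact hlam1 w⟩, rfl, rfl⟩).symm

end affine

section reg

open Equiv
open scoped commutatorElement

/-- An abelian torsion group of permutations of the integers normalised by the shift is
trivial. -/
theorem reg_abelian (A : Subgroup (Perm ℤ)) (hcomm : ∀ a ∈ A, ∀ b ∈ A, a * b = b * a)
    (htor : ∀ a ∈ A, IsOfFinOrder a)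
    (hnorm : ∀ n : ℤ, ∀ a ∈ A, Equiv.addRight n * a * (Equiv.addRight n)⁻¹ ∈ A) :
    A = ⊥ := by
  rw [eq_bot_iff]
  intro f hf
  rw [Subgroup.mem_bot]
  let R : ℤ → Setoid ℤ := fun i =>
    Equiv.Perm.SameCycle.setoid (Equiv.addRight i * f * (Equiv.addRight i)⁻¹)
  have hR : ∀ i a b, R i a b ↔
      Equiv.Perm.SameCycle (Equiv.addRight i * f * (Equiv.addRight i)⁻¹) a b :=
    fun i a b => Iff.rfl
  have hR' : ∀ i a b, R i a b ↔ Equiv.Perm.SameCycle f (a - i) (b - i) := by
    intro i a b
    rw [hR, Equiv.Perm.sameCycle_conj]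
    rfl
  have hperm : Permuting R := by
    rintro i j x y z ⟨n, hn⟩ ⟨k, hk⟩
    have hc : Commute (Equiv.addRight i * f * (Equiv.addRight i)⁻¹)
      (Equiv.addRight j * f * (Equiv.addRight j)⁻¹) :=
      hcomm _ (hnorm i f hf) _ (hnorm j f hf)
    have hc2 := (hc.zpow_zpow n k).eq
    refine ⟨_, ⟨k, rfl⟩, ⟨n, ?_⟩⟩
    rw [← Equiv.Perm.mul_apply, hc2, Equiv.Perm.mul_apply, hn, hk]
  have hshift : Shifting R := by
    intro i x y
    rw [hR', hR']
    simp
  have hfin : ∀ x, {y | R 0 x y}.Finite := by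
    intro x
    have h1 : (Subgroup.zpowers f : Set (Perm ℤ)).Finite := (htor f hf).finite_zpowers
    refine (h1.image (fun g => g x)).subset ?_
    intro y hy
    have h2 := (hR' 0 x y).mp hy
    simp only [sub_zero] at h2
    obtain ⟨n, hn⟩ := h2
    exact ⟨f ^ n, ⟨n, rfl⟩, hn⟩
  ext x
  have h3 := theoremF R hperm hshift hfin x (f x) ((hR' 0 x (f x)).mpr (by
    simp only [sub_zero]
    exact ⟨1, by simp⟩))
  rw [← h3]
  rfl

/-- A soluble torsion group of permutations of the integers normalised by the shift is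
trivial. -/
theorem reg (A : Subgroup (Perm ℤ)) (hsol : Group.IsSolvable A)
    (htor : ∀ a ∈ A, IsOfFinOrder a)
    (hnorm : ∀ n : ℤ, ∀ a ∈ A, Equiv.addRight n * a * (Equiv.addRight n)⁻¹ ∈ A) :
    A = ⊥ := by
  let D : ℕ → Subgroup (Perm ℤ) := fun n => (derivedSeries A n).map A.subtype
  have hD0 : D 0 = A := by
    change (⊤ : Subgroup A).map A.subtype = A
    rw [← MonoidHom.range_eq_map, Subgroup.range_subtype]
  have hDs : ∀ n, D (n + 1) = ⁅D n, D n⁆ := fun n => by
    change ((⁅derivedSeries A n, derivedSeries A n⁆ : Subgroup A)).map A.subtype = _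
    rw [Subgroup.map_commutator]
  have hDle : ∀ n, D n ≤ A := by
    intro n
    rintro x ⟨y, _, rfl⟩
    exact y.2
  have hDnorm : ∀ n, ∀ k : ℤ, (D n).map (MulAut.conj (Equiv.addRight k)).toMonoidHom ≤ D n := by
    intro n
    induction n with
    | zero =>
      intro k
      rw [hD0]
      rintro x ⟨y, hy, rfl⟩
      exact hnorm k y hy
    | succ n ih =>
      intro k
      rw [hDs, Subgroup.map_commutator]
      exact Subgroup.commutator_mono (ih k) (ih k)
  have hstep : ∀ n, D (n + 1) = ⊥ → D n = ⊥ := by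
    intro n hn
    apply reg_abelian
    · intro a ha b hb
      have h1 : ⁅a, b⁆ ∈ ⁅D n, D n⁆ := Subgroup.commutator_mem_commutator ha hb
      rw [← hDs, hn, Subgroup.mem_bot] at h1
      exact commutatorElement_eq_one_iff_mul_comm.mp h1
    · intro a ha
      exact htor a (hDle n ha)
    · intro k a ha
      exact hDnorm n k ⟨a, ha, rfl⟩
  obtain ⟨N, hN⟩ := hsol.solvable
  have hDN : D N = ⊥ := by
    change (derivedSeries A N).map A.subtype = ⊥
    rw [hN, Subgroup.map_bot]
  have hall : ∀ k, k ≤ N → D (N - k) = ⊥ := by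
    intro k
    induction k with
    | zero => intro _; exact hDN
    | succ k ih =>
      intro hk
      apply hstep
      have e : N - (k + 1) + 1 = N - k := by omega
      rw [e]
      exact ih (by omega)
  have := hall N le_rfl
  rw [Nat.sub_self, hD0] at this
  exact this

end reg

end Pool.Lift36
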